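import Pool.Agent.LibHF77.Defs
import Pool.Agent.LibHC34.Final
import Pool.Agent.LibHD77.F2
import Pool.Agent.LibHL77.X5

/-!
The theorems in terms of the definitions of the statement.
-/

open scoped Classical
open Polynomial

namespace Pool.Agent.LibHF77

open Pool.Agent.LibBH2
open Pool.Agent.LibHyp34 (Hyp Pt KC Sp jP Qb)
open Pool.Agent.LibHD77 (Dia Pnt CH cls IsPt IsSPt vec Pr DG nAt Orth MPt Close)
open Pool.Agent.LibHL77 (Small)
open Pool.Agent.LibHC34 (Over DistinctSets)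
open Pool.Agent.LibLP34 (sat)

section eq

variable {k : Type} [Field k]

theorem gen_gen (f : k[X]) [Hyp f] : gen f = Pool.Agent.LibHyp34.gen f := rfl

theorem isDivisor_eq (f : k[X]) [Hyp f] : IsDivisor f = Pool.Agent.LibHyp34.IsDiv f := rfl

theorem pic_eq (f : k[X]) [Hyp f] : Pic f = Pool.Agent.LibHyp34.Pic f := rfl

theorem jac_eq {f : k[X]} [Hyp f] (s : Pt f) : (jac s : Pool.Agent.LibHyp34.Pic f) = jP s := rfl

/-- the identity -/
noncomputable def toPic (f : k[X]) [Hyp f] : Pic f ≃+ Pool.Agent.LibHyp34.Pic f :=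
  AddEquiv.refl (Pool.Agent.LibHyp34.Pic f)

theorem toPic_jac {f : k[X]} [Hyp f] (s : Pt f) : toPic f (jac s) = jP s := rfl

variable {n D : ℕ} {F : Fin n → k[X]} [∀ a, Hyp (F a)]

theorem toPic_fixed (δ : Dia F D) (a : Fin n) :
    toPic (F a) (fixed δ a) = Pool.Agent.LibHD77.fx δ a := by
  unfold fixed Pool.Agent.LibHD77.fx
  rcases δ a with s | q
  · exact toPic_jac s
  · exact map_zero _

theorem vanish_iff {J : Type} [Fintype J] (m : J → ℤ) (δ : J → Dia F D) :
    Vanish m δ ↔ Pool.Agent.LibHD77.Vanish m δ := by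
  unfold Vanish Pool.Agent.LibHD77.Vanish
  refine forall_congr' fun q => and_congr_right fun _ => forall_congr' fun a => ?_
  rw [← (toPic (F a)).injective.isOfFinAddOrder_iff (f := (toPic (F a)).toAddMonoidHom)]
  show IsOfFinAddOrder (toPic (F a) _) ↔ _
  rw [map_sum]
  simp only [map_zsmul, toPic_fixed]

end eq

section thm

variable {k : Type} [Field k] [CharZero k] [IsAlgClosed k] {I : Type}

theorem by_numbers (f : I → k[X]) [∀ i, Hyp (f i)] (S : ∀ i, Set (Pt (f i))) (hS : Orth f S) :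
    ByNumbers f S := by
  intro n ι D J _ m δ M _ _ u hu hv
  have hH : ∀ a, Hyp (Pr ι f a) := fun a => inferInstanceAs (Hyp (f (ι a)))
  exact Pool.Agent.LibHD77.by_numbers f S hS n ι D J _ m δ M _ _ u hu ((vanish_iff m δ).1 hv)

theorem converse (f : I → k[X]) [∀ i, Hyp (f i)] : Converse f := by
  intro n ι D hs J _ m δ M _ _ u hu h
  have hH : ∀ a, Hyp (Pr ι f a) := fun a => inferInstanceAs (Hyp (f (ι a)))
  exact (vanish_iff m δ).2 (Pool.Agent.LibHL77.conv f n ι D hs J _ m δ M _ _ u hu h)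

theorem ranks (f : I → k[X]) [∀ i, Hyp (f i)] (S : ∀ i, Set (Pt (f i))) (hS : Orth f S) :
    Ranks f S := by
  intro r hr n ι D R hR
  have h1 : ∀ i, Module.rank ℤ (AddSubgroup.closure (jP '' S i)) = r i := hr
  subst hR
  exact ⟨Pool.Agent.LibHD77.rank_dia f S hS r (fun i => (h1 i).le) n ι D,
    fun hs => Pool.Agent.LibHL77.rank_eq f S hS r h1 n ι D hs⟩

theorem orth_over {J : Type} (f : I → k[X]) [∀ i, Hyp (f i)] (g : I → J → GL (Fin 2) k)
    (hg : Close f g) : OrthOver f g := by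
  intro z P hP
  exact Pool.Agent.LibHD77.orth_close f g hg z P hP

end thm

theorem indep {I J : Type} [Finite I] [Finite J] (f : I → Qb[X]) [∀ i, Hyp (f i)]
    (g : I → J → GL (Fin 2) Qb) (hg : DistinctSets f g) :
    ∃ (K : IntermediateField ℚ Qb) (z : ℕ → Qb), FiniteDimensional ℚ K ∧ (∀ n, z n ∈ K) ∧
      ∀ P : ℕ → ∀ i, J → Pt (f i), (∀ n, Over g (z n : OnePoint Qb) (P n)) →
        ∀ i, LinearIndependent ℤ (fun q : ℕ × J => jac (P q.1 i q.2)) := by
  have := Fintype.ofFinite I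
  have := Fintype.ofFinite J
  obtain ⟨K, hK, z, hz, h⟩ := Pool.Agent.LibHC34.indepSeq f g hg
  refine ⟨K, z, hK, hz, fun P hP i => ?_⟩
  have h1 := h P hP i
  exact h1

end Pool.Agent.LibHF77
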