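import Pool.Agent.LibHL77.Stmt

/-!
The statements on combinations of diagonals of products of hyperelliptic curves and on the groups
generated by points over related points of the line.
-/

open scoped Classical
open Polynomial

namespace Pool.Agent.LibHF77

open Pool.Agent.LibBH2
open Pool.Agent.LibHyp34 (Hyp Pt KC Sp)
open Pool.Agent.LibHD77 (Dia Pnt CH cls IsPt IsSPt vec Pr DG nAt Orth MPt)
open Pool.Agent.LibHL77 (Small)
open Pool.Agent.LibHC34 (Over)
open Pool.Agent.LibLP34 (sat)

variable {k : Type} [Field k]

section curve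

variable (f : k[X]) [Hyp f]

theorem gen_eq : (AdjoinRoot.root (quadPoly f) : KC f) ^ 2 =
    (f.map (algebraMap k (KC f))).eval (algebraMap (RatFunc k) (KC f) RatFunc.X) :=
  Pool.Agent.LibHyp34.gen_eq f

/-- The generic point `(s, w)` of the curve `y ^ 2 = f(x)`, with coordinates in its function field
`KC f = k(s)(w)`. -/
noncomputable def gen : MPt f (KC f) :=
  .aff (algebraMap (RatFunc k) (KC f) RatFunc.X) (AdjoinRoot.root (quadPoly f)) (gen_eq f)

/-- `D` is the divisor of a function `h` on the curve: the sum over the places `v` of the function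
field of `ord_v h` times the point at which `v` is centred. -/
def IsDivisor (D : Pt f →₀ ℤ) : Prop :=
  ∃ (h : KC f) (S : Finset (Place k (KC f))) (p : Place k (KC f) → Pt f),
    h ≠ 0 ∧ (∀ v, v.ord h ≠ 0 → v ∈ S) ∧ (∀ v ∈ S, Sp v (gen f) (p v)) ∧
    D = ∑ v ∈ S, Finsupp.single (p v) (v.ord h)

/-- The Picard group of the curve: divisors modulo divisors of functions. -/
abbrev Pic : Type := (Pt f →₀ ℤ) ⧸ AddSubgroup.closure {D | IsDivisor f D}

end curve

/-- The class of `s - ∞` in the Picard group. -/
noncomputable def jac {f : k[X]} [Hyp f] (s : Pt f) : Pic f :=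
  QuotientAddGroup.mk (Finsupp.single s 1 - Finsupp.single .inf 1)

variable {n D : ℕ} {F : Fin n → k[X]} [∀ a, Hyp (F a)]

/-- The class of `s - ∞` in the Picard group of `C_a` if the coordinate `a` of the diagonal `δ` is the
fixed point `s`, and `0` otherwise. -/
noncomputable def fixed (δ : Dia F D) (a : Fin n) : Pic (F a) :=
  match δ a with
  | .inl s => jac s
  | .inr _ => 0

/-- The numbers of the combination `∑ m_j δ_j` of diagonals vanish: for all integral quadratic forms
`q` in `n` variables the sum of the `m_j ∏_e q(v_(j,e))` is zero, where `v_(j,e)` is the vector of signs of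
the `e`-th free point of `δ_j`, and for every coordinate `a` the sum of the
`m_j ∏_e q(v_(j,e)) (s_(j,a) - ∞)` is torsion in the Jacobian of `C_a`, where `s_(j,a)` is the fixed
coordinate `a` of `δ_j` (`∞` if the coordinate `a` is not fixed). -/
def Vanish {J : Type} [Fintype J] (m : J → ℤ) (δ : J → Dia F D) : Prop :=
  ∀ q : QuadraticMap ℤ (Fin n → ℤ) ℤ, ∑ j, m j * ∏ e, q (vec (δ j) e) = 0 ∧
    ∀ a, IsOfFinAddOrder (∑ j, (m j * ∏ e, q (vec (δ j) e)) • fixed (δ j) a)

variable {I : Type}

/-- Combinations of diagonals of products of the curves `C_i` with fixed coordinates at infinity or in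
the sets `S` are torsion if their numbers vanish. -/
def ByNumbers (f : I → k[X]) [∀ i, Hyp (f i)] (S : ∀ i, Set (Pt (f i))) : Prop :=
  ∀ (n : ℕ) (ι : Fin n → I) (D : ℕ) (J : Type) (_ : Fintype J) (m : J → ℤ)
    (δ : J → Dia (Pr ι f) D) (M : J → Type) (_ : ∀ j, Field (M j)) (_ : ∀ j, Algebra k (M j))
    (u : ∀ j, Pnt (Pr ι f) (M j)), (∀ j, IsSPt ι f S (δ j) (u j)) → Vanish m δ →
    IsOfFinAddOrder (∑ j, m j • cls D (u j))

/-- If every curve occurs at most `2 * genus` times then the numbers of a torsion combination of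
diagonals vanish; the fixed coordinates are arbitrary. -/
def Converse (f : I → k[X]) [∀ i, Hyp (f i)] : Prop :=
  ∀ (n : ℕ) (ι : Fin n → I) (D : ℕ), Small ι f → ∀ (J : Type) (_ : Fintype J) (m : J → ℤ)
    (δ : J → Dia (Pr ι f) D) (M : J → Type) (_ : ∀ j, Field (M j)) (_ : ∀ j, Algebra k (M j))
    (u : ∀ j, Pnt (Pr ι f) (M j)), (∀ j, IsPt (δ j) (u j)) →
    IsOfFinAddOrder (∑ j, m j • cls D (u j)) → Vanish m δ

/-- If the classes of the points in `S i` generate a group of rank `r i` then the classes of the
diagonals of dimension `D` of `C_(ι 1) × ... × C_(ι n)` with fixed coordinates at infinity or in the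
sets `S` generate a group of rank at most `N + ∑_a r_(ι a) N_a`, where `N` (`N_a`) is the number of sets of
`D` disjoint subsets of the set of all coordinates (without `a`) which consist of one coordinate or of
two coordinates which belong to the same curve. If every curve occurs at most `2 * genus` times then
the rank is equal to this number. -/
def Ranks (f : I → k[X]) [∀ i, Hyp (f i)] (S : ∀ i, Set (Pt (f i))) : Prop :=
  ∀ r : I → ℕ, (∀ i, Module.rank ℤ (AddSubgroup.closure (jac '' S i)) = r i) →
    ∀ (n : ℕ) (ι : Fin n → I) (D R : ℕ), R = nAt (Pr ι f) D Finset.univ +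
      ∑ a, r (ι a) * nAt (Pr ι f) D (Finset.univ.erase a) →
      Module.rank ℤ (DG ι f S D) ≤ R ∧ (Small ι f → Module.rank ℤ (DG ι f S D) = R)

/-- For all points `z` of the line and `P i a` of `C_i` over `g i a z` the sets of the points `s` of
`C_i` with a multiple of `s - ∞` in the group generated by the `P i a - ∞` are orthogonal. -/
def OrthOver {J : Type} (f : I → k[X]) [∀ i, Hyp (f i)] (g : I → J → GL (Fin 2) k) : Prop :=
  ∀ (z : OnePoint k) (P : ∀ i, J → Pt (f i)), Over g z P →
    Orth f fun i => {s | jac s ∈ sat (Set.range fun a => jac (P i a))}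

end Pool.Agent.LibHF77
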